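import Pool.Agent.W516.K3.Defs4

/-! DH-NRM: endomorphisms annihilating the tensor normalize the Clifford multiplications. -/

set_option autoImplicit false

namespace Pool.Agent.W563.DH

open Module TensorProduct Pool.Agent.W516.K3

theorem T_NRM : S_NRM := by
  intro F T H _ _ _ _ _ _ _ _ _ b γ ω Z ι _ e e' hsym hcl hω ht hZ
  set D : F := (finrank F H : F) with hD
  have hD0 : D ≠ 0 := by
    rw [hD]
    exact Nat.cast_ne_zero.2 (finrank_pos (R := F) (M := H)).ne'
  set tr := LinearMap.trace F H with htr
  have htr1 : tr 1 = D := LinearMap.trace_one F H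
  have hbt : ∀ u v, tr (γ u * γ v) = D * b u v := by
    intro u v
    have h1 := congrArg tr (hcl u v)
    rw [map_add, htr, LinearMap.trace_mul_comm F (γ v) (γ u), map_smul, ← htr, htr1, smul_eq_mul]
      at h1
    have h2 : (2 : F) ≠ 0 := two_ne_zero
    apply mul_left_cancel₀ h2
    linear_combination h1
  set zz : T →ₗ[F] Module.End F H :=
    (LinearMap.mulLeft F Z - LinearMap.mulRight F Z).comp γ with hzz
  have hz : ∀ t, zz t = Z * γ t - γ t * Z := fun t => rfl
  have hA : ∀ u v, ∑ i, (ω (zz (e i) u) v • γ (e' i) + ω (γ (e i) u) v • zz (e' i)) = 0 := by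
    intro u v
    ext w
    apply hω
    intro y
    have h1 := hZ u v w y
    rw [LinearMap.sum_apply, map_sum, LinearMap.sum_apply, ← h1]
    refine Finset.sum_congr rfl fun i _ => ?_
    rw [LinearMap.add_apply, LinearMap.smul_apply, LinearMap.smul_apply, map_add, map_smul, map_smul,
      LinearMap.add_apply, LinearMap.smul_apply, LinearMap.smul_apply, smul_eq_mul, smul_eq_mul]
    rfl
  have hB : ∀ t u v, D * ω (zz t u) v + ∑ i, ω (γ (e i) u) v * tr (zz (e' i) * γ t) = 0 := by
    intro t u v
    have h1 := congrArg (fun X => tr (X * γ t)) (hA u v)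
    simp only [zero_mul, map_zero] at h1
    rw [Finset.sum_mul, map_sum] at h1
    have h2 : ∀ i, tr ((ω (zz (e i) u) v • γ (e' i) + ω (γ (e i) u) v • zz (e' i)) * γ t) =
        ω (zz (e i) u) v * (D * b (e' i) t) + ω (γ (e i) u) v * tr (zz (e' i) * γ t) := by
      intro i
      rw [add_mul, map_add, smul_mul_assoc, smul_mul_assoc, map_smul, map_smul, hbt, smul_eq_mul,
        smul_eq_mul]
    simp only [h2] at h1
    rw [Finset.sum_add_distrib] at h1
    rw [← h1]
    congr 1
    have h3 : zz t = ∑ i, b (e' i) t • zz (e i) := by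
      conv_lhs => rw [ht t]
      rw [map_sum]
      simp only [map_smul]
    rw [h3, LinearMap.sum_apply, map_sum, LinearMap.sum_apply, Finset.mul_sum]
    refine Finset.sum_congr rfl fun i _ => ?_
    rw [LinearMap.smul_apply, map_smul, LinearMap.smul_apply, smul_eq_mul]
    ring
  have hC : ∀ t, D • zz t + ∑ i, tr (zz (e' i) * γ t) • γ (e i) = 0 := by
    intro t
    ext u
    apply hω
    intro v
    rw [← hB t u v, LinearMap.add_apply, LinearMap.smul_apply, LinearMap.sum_apply, map_add,
      map_smul, map_sum, LinearMap.add_apply, LinearMap.smul_apply, LinearMap.sum_apply,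
      smul_eq_mul]
    congr 1
    refine Finset.sum_congr rfl fun i _ => ?_
    rw [LinearMap.smul_apply, map_smul, LinearMap.smul_apply, smul_eq_mul]
    ring
  refine ⟨(-D⁻¹) • ∑ i, (tr.comp ((LinearMap.mulLeft F (zz (e' i))).comp γ)).smulRight (e i),
    fun t => ?_⟩
  rw [← hz, LinearMap.smul_apply, LinearMap.sum_apply, map_smul, map_sum]
  have h1 : ∀ i, γ (((tr.comp ((LinearMap.mulLeft F (zz (e' i))).comp γ)).smulRight (e i)) t) =
      tr (zz (e' i) * γ t) • γ (e i) := by
    intro i
    rw [LinearMap.smulRight_apply, map_smul]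
    rfl
  simp only [h1]
  have h2 : ∑ i, tr (zz (e' i) * γ t) • γ (e i) = -(D • zz t) := by
    have := hC t
    rw [add_comm] at this
    exact eq_neg_of_add_eq_zero_left this
  rw [h2, smul_neg, neg_smul, neg_neg, smul_smul, inv_mul_cancel₀ hD0, one_smul]

end Pool.Agent.W563.DH
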